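import Mathlib
import Pool.Agent.Helper85.FV.Final

/-!
# ZFC does not prove that `L Γ` embeds into `R^U` whenever `Γ` embeds into `U(R^U)`

The hyperfinite factor is `R = L(S_∞)`, where `S_∞` is the group of the finitary permutations of
`ℕ`; `dec : ℕ → ℂ[Perm ℕ]` enumerates its dense `*`-subalgebra `ℚ(i)[S_∞]`. By Kaplansky's density
theorem the elements of the ultrapower `R^U` of a model `N` are the classes, modulo the 2-norm
along `U`, of the sequences `n ↦ dec (x n)` with `x ∈ N` that are bounded in operator norm. An
embedding of `L Γ` into `R^U` is the same thing as a homomorphism `π` of `Γ` into the unitary group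
of `R^U` with `τ (π g) = 0` for all `g ≠ 1`.
-/

namespace Pool.Agent.Results.MP_0dc0fb_an.NotProvable

open Pool.Agent.Helper96.Fc Pool.Agent.Helper89.FV

/-- **Main theorem.** There are a countable transitive model `N` of `ZFC`, a free ultrafilter `U`
on `ω` in `N` and a group `Γ = (S, m)` in `N` such that, in `N`, the group `Γ` has an injective
homomorphism into the unitary group of `R^U`, but no homomorphism of `Γ` into the unitary group of
`R^U` maps all elements other than `1` to elements of trace `0`. -/
theorem result : ∃ N : Set ZFSet.{0}, N.Countable ∧ IsZFC N ∧ ∃ U, FreeUltra N U ∧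
    ∃ (S m : ZFSet.{0}) (G : Group {g // g ∈ S}), GroupIn N S m G ∧
      (∃ θ, HomIn N U S G θ ∧ Inj U S G θ) ∧ ¬ ∃ π, HomIn N U S G π ∧ TraceZero U S G π :=
  Pool.Agent.Helper85.FV.main

end Pool.Agent.Results.MP_0dc0fb_an.NotProvable
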